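import Pool.Agent.P.MP_de05b4_pr.Main

/-! Two-dimensional random walk in Dirichlet environment with nonzero mean drift and trapping
parameter larger than one: the environment seen from the particle has a unique invariant
probability that is absolutely continuous with respect to the static law. -/

open MeasureTheory

theorem Pool.Agent.Results.MP_de05b4_pr.DriftInvariant.result (α : Fin 4 → ℝ)
    (hα : ∀ i, 0 < α i)
    (hκ : 1 < 2 * ∑ i, α i - max (α 0 + α 2) (α 1 + α 3))
    (hd : α 0 ≠ α 2 ∨ α 1 ≠ α 3) :
    ∃! Q : Measure DRW.Env,
      IsProbabilityMeasure Q ∧ Q.AbsolutelyContinuous (DRW.law α) ∧ DRW.Invariant Q :=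
  DRW.main α hα hκ hd
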