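import Pool.Agent.P.MP_de05b4_pr.Main2

/-! Two-dimensional random walk in Dirichlet environment with trapping parameter at most one:
no absolutely continuous invariant probability for the environment seen from the particle, and
a local accelerating function for which there is a unique one exactly when the mean drift is
nonzero. -/

open MeasureTheory

theorem Pool.Agent.Results.MP_de05b4_pr.StrongTraps.result (α : Fin 4 → ℝ)
    (hα : ∀ i, 0 < α i)
    (hκ : 2 * ∑ i, α i - max (α 0 + α 2) (α 1 + α 3) ≤ 1) :
    (¬ ∃ Q : Measure DRW.Env,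
      IsProbabilityMeasure Q ∧ Q.AbsolutelyContinuous (DRW.law α) ∧ DRW.Invariant Q) ∧
    ∃ γ : DRW.Env → ℝ, DRW.LocalAcc γ ∧
      ((∃! Q : Measure DRW.Env,
        IsProbabilityMeasure Q ∧ Q.AbsolutelyContinuous (DRW.law α) ∧ DRW.InvariantAcc γ Q) ↔
        (α 0 ≠ α 2 ∨ α 1 ≠ α 3)) :=
  DRW.main2 α hα hκ
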